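import Pool.Agent.helper69.DH.SpecR2

/-!
# Module rWTU of project dh: the sup norm of the routed function
-/

set_option autoImplicit false

open Filter Topology MeasureTheory
open scoped commutatorElement

namespace Pool.Agent.helper90.DH

open Pool.Agent.helper64.D2

theorem rWTU (hB : rWTB_stmt) (hV : rWTV_stmt) (hA : rABL_stmt) : rWTU_stmt := by
  intro P S hS hR D hD F hF i hi x
  have hq : (0 : ℝ) < P.q := by
    have : 0 < P.q := by omega
    exact_mod_cast this
  by_cases hx : x ∈ Set.Ico (9 / 32 : ℝ) (23 / 32)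
  · have h1 := hA (fun s => rwt P D s i (ci s x)) (fun s => F s x) P.s0 (S + 1) 8 (by omega)
      (fun s hs1 hs2 => hF.1 s P.s0 hs1 hs2 le_rfl (by omega) x)
    have h2 := hV P S hR D hD x i hx hi
    have h3 := (hB P S hR D hD S (ci S x) hS le_rfl).2 i
    rw [Nat.add_sub_cancel] at h1
    have h4 : |rwt P D S i (ci S x)| ≤ 2 / P.q := by
      rw [abs_of_nonneg h3.1]
      exact h3.2
    calc |∑ s ∈ Finset.Ico P.s0 (S + 1), rwt P D s i (ci s x) * (F (s + 1) x - F s x)|
        ≤ 8 * (|rwt P D S i (ci S x)| + ∑ s ∈ Finset.Ico P.s0 S,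
          |rwt P D (s + 1) i (ci (s + 1) x) - rwt P D s i (ci s x)|) := h1
      _ ≤ 8 * (2 / P.q + 2 ^ 16 / P.q) := by linarith
      _ = (8 * (2 + 2 ^ 16)) / P.q := by ring
      _ ≤ 2 ^ 20 / P.q := div_le_div_of_nonneg_right (by norm_num) hq.le
  · have h0 : ∑ s ∈ Finset.Ico P.s0 (S + 1), rwt P D s i (ci s x) * (F (s + 1) x - F s x) = 0 := by
      refine Finset.sum_eq_zero fun s hs => ?_
      rw [Finset.mem_Ico] at hs
      rw [hF.2 s hs.1 (by omega) x hx, sub_self, mul_zero]
    rw [h0, abs_zero]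
    positivity

end Pool.Agent.helper90.DH
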